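import Mathlib
import Pool.Agent.Helper65.MT.St

/-! # Project MT, module A1: one window -/

open Finset Pool.Agent.Helper65.MT Pool.Agent.Helper16

namespace Pool.Agent.Helper79.MT

theorem m_A1 : StA1 := by
  intro hCF hVW hSL hFC hGE
  obtain ⟨X1, h1⟩ := hCF hFC hGE
  obtain ⟨X2, h2⟩ := hVW hGE
  -- eventually: 1000 * log s ≤ s
  have hev : ∀ᶠ s : ℝ in Filter.atTop, Real.log s ≤ (1 / 1000) * s := by
    have := (Real.isLittleO_log_id_atTop).bound (show (0 : ℝ) < 1 / 1000 by norm_num)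
    filter_upwards [this, Filter.eventually_ge_atTop (1 : ℝ)] with s hs hs1
    rw [Real.norm_of_nonneg (Real.log_nonneg hs1), id, Real.norm_of_nonneg (by linarith)] at hs
    exact hs
  obtain ⟨S0, hS0⟩ := Filter.eventually_atTop.1 hev
  refine ⟨800, max (max X1 X2) (max (Real.exp (Real.exp 17)) (Real.exp S0)), by norm_num, ?_⟩
  intro t ht H hH1 hH4 hHt
  have htX1 : X1 ≤ t := le_trans (le_trans (le_max_left _ _) (le_max_left _ _)) ht
  have htX2 : X2 ≤ t := le_trans (le_trans (le_max_right _ _) (le_max_left _ _)) ht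
  have hte : Real.exp (Real.exp 17) ≤ t :=
    le_trans (le_trans (le_max_left _ _) (le_max_right _ _)) ht
  have htS : Real.exp S0 ≤ t := le_trans (le_trans (le_max_right _ _) (le_max_right _ _)) ht
  have htpos : (0 : ℝ) < t := lt_of_lt_of_le (Real.exp_pos _) hte
  set s := Real.log t with hs
  have hse : Real.exp 17 ≤ s := by
    rw [hs, Real.le_log_iff_exp_le htpos]; exact hte
  have hsS : S0 ≤ s := by
    rw [hs, Real.le_log_iff_exp_le htpos]; exact htS
  have hspos : 0 < s := lt_of_lt_of_le (Real.exp_pos _) hse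
  set u := Real.log s with hu
  have hu17 : 17 ≤ u := by
    rw [hu, Real.le_log_iff_exp_le hspos]; exact hse
  have hupos : 0 < u := by linarith
  have hsu : 1000 * u ≤ s := by have := hS0 s hsS; rw [← hu] at this; linarith
  have hlog4 : (1 : ℝ) ≤ Real.log 4 := by
    rw [Real.le_log_iff_exp_le (by norm_num)]
    have := Real.exp_one_lt_d9
    linarith
  -- the choice of K
  set x := s / (250 * u) with hx
  have hx4 : 4 ≤ x := by
    rw [hx, le_div_iff₀ (by positivity)]; linarith
  obtain ⟨K, hK1, hK2⟩ := exists_nat_pow_near (show (1 : ℝ) ≤ x by linarith)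
    (show (1 : ℝ) < 4 by norm_num)
  have hKpos : 1 ≤ K := by
    by_contra hcon
    have : K = 0 := by omega
    rw [this] at hK2
    norm_num at hK2
    linarith
  have hK1' : 250 * (4 : ℝ) ^ K * u ≤ s := by
    rw [hx, le_div_iff₀ (by positivity)] at hK1
    linarith
  have hpowlog : ∀ (j : ℕ) , (4 : ℝ) ^ j ≤ s → (j : ℝ) ≤ u := by
    intro j hj
    have h3 := Real.log_le_log (by positivity) hj
    rw [Real.log_pow] at h3
    have : (j : ℝ) * 1 ≤ j * Real.log 4 := mul_le_mul_of_nonneg_left hlog4 (Nat.cast_nonneg j)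
    linarith
  have hKu : (K : ℝ) ≤ u := by
    apply hpowlog
    have h4 : (0 : ℝ) < 4 ^ K := by positivity
    nlinarith
  -- the parameters of the summation lemma
  set a := 240 * t * u / s with ha
  set b := 31 * (t : ℝ) with hb
  have hapos : 0 < a := by rw [ha]; positivity
  have hbpos : 0 < b := by rw [hb]; positivity
  set y := b / 2 ^ K / a with hy
  have hypos : 0 < y := by rw [hy]; positivity
  have hysq : y ^ 2 ≤ s := by
    have h5 : y = (31 / 240) * (s / u) / 2 ^ K := by
      rw [hy, ha, hb]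
      field_simp
    have h6 : y ^ 2 * 4 ^ K = (31 / 240) ^ 2 * (s / u) ^ 2 := by
      rw [h5, div_pow, mul_pow]
      have : ((2 : ℝ) ^ K) ^ 2 = 4 ^ K := by rw [← pow_mul, mul_comm, pow_mul]; norm_num
      rw [this]
      field_simp
    have h7 : s / u < 1000 * 4 ^ K := by
      rw [hx, div_lt_iff₀ (by positivity), pow_succ] at hK2
      rw [div_lt_iff₀ hupos]
      linarith
    have h8 : s / u * 17 ≤ s := by
      rw [div_mul_eq_mul_div, div_le_iff₀ hupos]
      nlinarith
    have h9 : 0 < s / u := by positivity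
    have h10 : y ^ 2 * 4 ^ K ≤ (31 / 240) ^ 2 * (s / u) * (1000 * 4 ^ K) := by
      rw [h6, sq (s / u), ← mul_assoc]
      exact mul_le_mul_of_nonneg_left h7.le (by positivity)
    have h11 : y ^ 2 ≤ (31 / 240) ^ 2 * (s / u) * 1000 := by
      have h12 : (0 : ℝ) < 4 ^ K := by positivity
      have : y ^ 2 * 4 ^ K ≤ ((31 / 240) ^ 2 * (s / u) * 1000) * 4 ^ K := by
        calc _ ≤ _ := h10
          _ = _ := by ring
      exact le_of_mul_le_mul_right this h12
    nlinarith
  obtain ⟨I, hI1, hI2⟩ : ∃ I : ℕ, y ≤ 2 ^ I ∧ ∀ i < I, (2 : ℝ) ^ i ≤ y := by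
    by_cases hy1 : y ≤ 1
    · exact ⟨0, by simpa using hy1, fun i hi => absurd hi (Nat.not_lt_zero i)⟩
    · obtain ⟨n, hn1, hn2⟩ := exists_nat_pow_near (le_of_lt (not_le.1 hy1))
        (show (1 : ℝ) < 2 by norm_num)
      refine ⟨n + 1, hn2.le, fun i hi => le_trans ?_ hn1⟩
      exact pow_le_pow_right₀ (by norm_num) (by omega)
  have hsqi : ∀ i < I, (4 : ℝ) ^ i ≤ s := by
    intro i hi
    have h3 := hI2 i hi
    have h4 : (4 : ℝ) ^ i = (2 ^ i) ^ 2 := by rw [← pow_mul, mul_comm, pow_mul]; norm_num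
    rw [h4]
    exact le_trans (pow_le_pow_left₀ (by positivity) h3 2) hysq
  have hIu : (I : ℝ) ≤ u + 1 := by
    rcases Nat.eq_zero_or_pos I with h0 | h0
    · rw [h0]; push_cast; linarith
    · have := hpowlog (I - 1) (hsqi (I - 1) (by omega))
      rw [Nat.cast_sub h0] at this
      push_cast at this
      linarith
  have hcard : ((Finset.Ioc t (t + H)).card : ℝ) = H := by
    rw [Nat.card_Ioc]; congr 1; omega
  have hpow2 : ∀ k : ℕ, (((2 ^ k : ℕ) : ℝ)) = 2 ^ k := fun k => by push_cast; rfl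
  obtain ⟨m, hm⟩ := hSL (Finset.Ioc t (t + H)) lam a b I K hapos hbpos hKpos (by
      intro i hi
      have hD : (((2 ^ i : ℕ)) : ℝ) ≤ Real.sqrt (Real.log t) := by
        rw [hpow2]
        apply Real.le_sqrt_of_sq_le
        have h4 : (4 : ℝ) ^ i = (2 ^ i) ^ 2 := by rw [← pow_mul, mul_comm, pow_mul]; norm_num
        rw [← h4]
        exact hsqi i hi
      have h3 := h1 t htX1 H (2 ^ i) hH1 hHt Nat.one_le_two_pow hD
      rw [hpow2, ← hs, ← hu] at h3
      have h4 : 240 * (t : ℝ) * 2 ^ i * u / s = a * 2 ^ i := by rw [ha]; ring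
      rw [h4] at h3
      rw [hcard]
      exact h3) (by
      intro k hk1 hkK
      have h2k : 2 ≤ 2 ^ k := by
        calc 2 = 2 ^ 1 := by norm_num
          _ ≤ 2 ^ k := Nat.pow_le_pow_right (by norm_num) hk1
      have h3 := h2 t htX2 (2 ^ k) h2k (by
        rw [hpow2]
        have h4 : ((2 : ℝ) ^ k) ^ 2 = 4 ^ k := by rw [← pow_mul, mul_comm, pow_mul]; norm_num
        rw [h4, ← hs, ← hu]
        have h5 : (4 : ℝ) ^ k ≤ 4 ^ K := pow_le_pow_right₀ (by norm_num) hkK
        nlinarith) ((Finset.Ioc t (t + H)).filter fun n => b / 2 ^ k < lam n) (by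
        intro n hn
        rw [Finset.mem_filter, Finset.mem_Ioc] at hn
        obtain ⟨⟨hn1, hn2⟩, hn3⟩ := hn
        refine ⟨hn1.le, ?_, ?_⟩
        · have : (n : ℝ) ≤ t + H := by exact_mod_cast hn2
          linarith
        · rw [hpow2, ← hb]; exact hn3)
      exact h3) (by
      rw [hy, div_le_iff₀ hapos] at hI1
      linarith)
  refine ⟨m, le_trans hm ?_⟩
  rw [hcard]
  have hHs : s ≤ H := hH1
  have hHpos : (0 : ℝ) < H := lt_of_lt_of_le hspos hHs
  have e1 : a * H + 2 * a * H * I ≤ a * H * (3 * u) := by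
    have h3 : (1 : ℝ) + 2 * I ≤ 3 * u := by linarith
    have h4 : 0 ≤ a * H := by positivity
    have := mul_le_mul_of_nonneg_left h3 h4
    linarith
  have e2 : a * H * (3 * u) = 720 * (H * t * u ^ 2 / s) := by
    rw [ha]; ring
  have e3 : 2 * b * K ≤ 62 * (H * t * u ^ 2 / s) := by
    have h3 : 2 * b * K ≤ 62 * (t * u) := by
      rw [hb]
      have := mul_le_mul_of_nonneg_left hKu htpos.le
      linarith
    have h4 : (t : ℝ) * u ≤ H * t * u ^ 2 / s := by
      rw [le_div_iff₀ hspos]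
      have h5 : (t : ℝ) * u * s ≤ t * u * H := mul_le_mul_of_nonneg_left hHs (by positivity)
      have h6 : (t : ℝ) * u * H * 1 ≤ t * u * H * u :=
        mul_le_mul_of_nonneg_left (by linarith) (by positivity)
      nlinarith
    linarith
  have e4 : 0 ≤ H * t * u ^ 2 / s := by positivity
  have e5 : 800 * (H : ℝ) * t * u ^ 2 / s = 800 * (H * t * u ^ 2 / s) := by ring
  rw [e5]
  linarith

end Pool.Agent.Helper79.MT
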